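import Pool.Agent.D0H68.Eng.Cross

set_option autoImplicit false

/-!
Every minimal non-Engel variety of associative rings is a Cross variety.
-/

namespace Pool.Agent.Results.MP_a5aec7_al.EngelCross

open Pool.Agent.D0H68.Eng

/-- Every minimal non-Engel variety of associative rings is a Cross variety. -/
theorem result (C : RingClass) (hC : MinimalNonEngel C) : IsCross C := (main C hC).1

end Pool.Agent.Results.MP_a5aec7_al.EngelCross
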